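import Pool.Agent.W2helper22.Tw.Fin

/-!
# Rational points of small `p`-adic height on the quadratic twists of an elliptic curve

Let `E : y² = x³ + A x + B` be an elliptic curve over `ℚ`, let `p ≥ 5` be a prime, and let `E_D` be
the quadratic twist of `E` by the squarefree integer `D`. We bound the number of the twists `E_D`,
`|D| ≤ N`, with good ordinary reduction at `p`, on which some rational point of infinite order, of
height polynomially bounded in `N`, has a vanishing or a very small canonical `p`-adic height: there
are at most `C N ^ ε` of them, for every `ε > 0`.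

The `p`-adic heights of the points of all twists are given by one power series, the sigma function
of `E`. The proof shows that this function satisfies no algebraic relation with the coordinates of
`E`, and counts the approximate rational points on the resulting transcendental `p`-adic curve with
the determinant method.
-/

set_option autoImplicit false

namespace Pool.Agent.Results.MP_3550b5_nt.QuadraticTwists

open Pool.Agent.Y732

/-- The quadratic twist `y² = x³ + A D² x + B D³` of `y² = x³ + A x + B` by `D`. -/
def twist (A B D : ℤ) : WeierstrassCurve ℤ := ⟨0, 0, 0, A * D ^ 2, B * D ^ 3⟩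

/-- `Q` is a point of infinite order, and the numerator and the denominator of its `x`-coordinate
are at most `H` in absolute value. -/
def SmallPoint (W : WeierstrassCurve ℤ) (H : ℕ) (Q : (WQ W).Point) : Prop :=
  (∀ n : ℕ, 1 ≤ n → n • Q ≠ 0) ∧
    ∃ (x y : ℚ) (hP : (WQ W).Nonsingular x y), Q = .some _ _ hP ∧ |x.num| ≤ H ∧ x.den ≤ H

/-- For every canonical `p`-adic height `h` of the curve `W`:
* `h Q` has norm at least `1 / T` for every small point `Q`;
* if the rank of the group of rational points is one and there is a small point, then Schneider's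
  conjecture holds for `W` and `p` (the regulator does not vanish on the bases of the subgroups of
  finite index modulo torsion), and the regulator of every basis of the group of rational points
  modulo torsion has norm at least `1 / T`. -/
def Good (p : ℕ) [Fact p.Prime] (W : WeierstrassCurve ℤ) (H : ℕ) (T : ℝ) : Prop :=
  ∀ h : (WQ W).Point → ℚ_[p], IsHeightW p W h →
    (∀ Q, SmallPoint W H Q → T⁻¹ ≤ ‖h Q‖) ∧
    (Module.finrank ℤ (WQ W).Point = 1 → (∃ Q, SmallPoint W H Q) →
      ∀ (s : ℕ) (c : Fin s → (WQ W).Point), LinearIndependent ℤ c →
        ((∀ Q, ∃ n : ℤ, n ≠ 0 ∧ n • Q ∈ Submodule.span ℤ (Set.range c)) → Reg h c ≠ 0) ∧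
        ((∀ Q, ∃ T' : (WQ W).Point, (∃ n : ℤ, n ≠ 0 ∧ n • T' = 0) ∧
          Q + T' ∈ Submodule.span ℤ (Set.range c)) → T⁻¹ ≤ ‖Reg h c‖))

/-- Let `E : y² = x³ + A x + B` be an elliptic curve and `p ≥ 5` a prime. For every `K` and every
`ε > 0` there are `C > 0` and `κ` such that for all `N ≥ 1`, for all but at most `C N ^ ε` of the
squarefree integers `D` with `|D| ≤ N` for which the twist `E_D` has good ordinary reduction at
`p` (`p` does not divide the discriminant of its equation), the canonical `p`-adic heights of all the rational points of infinite order of `E_D` whose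
`x`-coordinate has numerator and denominator at most `N ^ K` have norm at least `1 / (C N ^ κ)`,
and Schneider's conjecture holds for `E_D` and `p` if the rank is one and there is such a point. -/
theorem result (A B : ℤ) (hE : 4 * A ^ 3 + 27 * B ^ 2 ≠ 0) (p : ℕ) [Fact p.Prime] (hp : 5 ≤ p)
    (K : ℕ) (ε : ℝ) (hε : 0 < ε) :
    ∃ (C : ℝ) (κ : ℕ), 0 < C ∧ ∀ N : ℕ, 1 ≤ N →
      ({D : ℤ | |D| ≤ N ∧ Squarefree D ∧ IsOrdinaryW p (twist A B D) ∧
        ¬ Good p (twist A B D) (N ^ K) (C * (N : ℝ) ^ κ)}.ncard : ℝ) ≤ C * (N : ℝ) ^ ε :=
  Pool.Agent.W2helper22.Tw.main hp hE K hε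

end Pool.Agent.Results.MP_3550b5_nt.QuadraticTwists
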